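import Pool.Agent.BOX.StmtsG

/-! BOX, row RSA: the equation of the approximate solution. -/

namespace Pool.Agent.BOX.H10

open Set Filter Topology MeasureTheory
open Pool.Agent.BOX

noncomputable section

/-! ## Two identities for finite sums -/

theorem comb1 (K : ℕ) (f : ℕ → ℕ → ℂ) :
    ∑ j ∈ Finset.range (K + 1), ∑ i ∈ Finset.Icc 1 j, f i (j - i) =
    ∑ j ∈ Finset.range (K + 1), ∑ i ∈ Finset.Icc 1 K, if i + j ≤ K then f i j else 0 := by
  simp_rw [← Finset.sum_filter]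
  rw [Finset.sum_sigma', Finset.sum_sigma']
  refine Finset.sum_nbij' (fun p => ⟨p.1 - p.2, p.2⟩) (fun p => ⟨p.1 + p.2, p.2⟩) ?_ ?_ ?_ ?_ ?_
  · rintro ⟨j, i⟩ h
    simp only [Finset.mem_sigma, Finset.mem_range, Finset.mem_Icc, Finset.mem_filter] at h ⊢
    omega
  · rintro ⟨j, i⟩ h
    simp only [Finset.mem_sigma, Finset.mem_range, Finset.mem_Icc, Finset.mem_filter] at h ⊢
    omega
  · rintro ⟨j, i⟩ h
    simp only [Finset.mem_sigma, Finset.mem_range, Finset.mem_Icc] at h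
    have h1 : j - i + i = j := by omega
    simp only [h1]
  · rintro ⟨j, i⟩ h
    simp only [Nat.add_sub_cancel]
  · rintro ⟨j, i⟩ h
    rfl

theorem comb2 (K : ℕ) (f : ℕ → ℕ → ℕ → ℂ) :
    ∑ n ∈ Finset.range K, ∑ a ∈ Finset.range (n + 1), ∑ b ∈ Finset.range (n + 1 - a),
      f a b (n - a - b) =
    ∑ a ∈ Finset.range (K + 1), ∑ b ∈ Finset.range (K + 1), ∑ c ∈ Finset.range (K + 1),
      if a + b + c < K then f a b c else 0 := by
  simp_rw [← Finset.sum_filter]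
  rw [Finset.sum_sigma', Finset.sum_sigma', Finset.sum_sigma', Finset.sum_sigma']
  refine Finset.sum_nbij' (fun p => ⟨⟨p.1.2, p.2⟩, p.1.1 - p.1.2 - p.2⟩)
    (fun p => ⟨⟨p.1.1 + p.1.2 + p.2, p.1.1⟩, p.1.2⟩) ?_ ?_ ?_ ?_ ?_
  · rintro ⟨⟨n, a⟩, b⟩ h
    simp only [Finset.mem_sigma, Finset.mem_range, Finset.mem_filter] at h ⊢
    omega
  · rintro ⟨⟨a, b⟩, c⟩ h
    simp only [Finset.mem_sigma, Finset.mem_range, Finset.mem_filter] at h ⊢
    omega
  · rintro ⟨⟨n, a⟩, b⟩ h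
    simp only [Finset.mem_sigma, Finset.mem_range] at h
    have h1 : a + b + (n - a - b) = n := by omega
    simp only [h1]
  · rintro ⟨⟨a, b⟩, c⟩ h
    have h1 : a + b + c - a - b = c := by omega
    simp only [h1]
  · rintro ⟨⟨n, a⟩, b⟩ h
    rfl

/-! ## Evaluation of sums -/

section evs

variable {P Q : Type} [AddCommGroup P] [AddCommGroup Q]

theorem sum_ev (θ : P →+ ℝ) {F : P × Q → ℂ} {k : Q} (h : Summable fun p => ‖F (p, k)‖) (t : ℝ) :
    Summable fun p => F (p, k) * Complex.exp (Complex.I * ((θ p * t : ℝ) : ℂ)) := by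
  refine Summable.of_norm ?_
  refine h.congr (fun p => ?_)
  rw [norm_mul, mul_comm Complex.I, Complex.norm_exp_ofReal_mul_I, mul_one]

theorem ev_fsum (θ : P →+ ℝ) {ι : Type} (s : Finset ι) (c : ι → ℂ) (F : ι → P × Q → ℂ) {k : Q}
    (h : ∀ i ∈ s, Summable fun p => ‖F i (p, k)‖) (t : ℝ) :
    ev θ (fun g => ∑ i ∈ s, c i * F i g) t k = ∑ i ∈ s, c i * ev θ (F i) t k := by
  unfold ev
  have h1 : ∀ p : P, (∑ i ∈ s, c i * F i (p, k)) * Complex.exp (Complex.I * ((θ p * t : ℝ) : ℂ)) =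
      ∑ i ∈ s, c i * (F i (p, k) * Complex.exp (Complex.I * ((θ p * t : ℝ) : ℂ))) := by
    intro p
    rw [Finset.sum_mul]
    exact Finset.sum_congr rfl (fun i _ => mul_assoc _ _ _)
  simp_rw [h1]
  rw [Summable.tsum_finsetSum (fun i hi => (sum_ev θ (h i hi) t).mul_left (c i))]
  exact Finset.sum_congr rfl (fun i _ => tsum_mul_left)

theorem fib {F : P × Q → ℂ} (h : Summable fun g => ‖F g‖) (k : Q) :
    Summable fun p => ‖F (p, k)‖ :=
  h.comp_injective (i := fun p => (p, k)) (fun _ _ hab => (Prod.ext_iff.mp hab).1)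

end evs

/-! ## The cube of a finite sum -/

theorem T3_fsum (T3A : T3aStmt) {Γ : Type} [AddCommGroup Γ] (n : ℕ) (c : ℕ → ℂ)
    (V : ℕ → Γ → ℂ) (hV : ∀ a < n, Summable fun g => ‖V a g‖) (g : Γ) :
    T3 (fun x => ∑ a ∈ Finset.range n, c a * V a x) (fun x => ∑ a ∈ Finset.range n, c a * V a x)
      (fun x => ∑ a ∈ Finset.range n, c a * V a x) g =
    ∑ a ∈ Finset.range n, ∑ b ∈ Finset.range n, ∑ d ∈ Finset.range n,
      (c a * c b * c d) * T3 (V a) (V b) (V d) g := by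
  have hs : ∀ a ∈ Finset.range n, ∀ b ∈ Finset.range n, ∀ d ∈ Finset.range n,
      Summable fun h : Γ × Γ => V a h.1 * V b h.2 * V d (g - h.1 - h.2) := by
    intro a ha b hb d hd
    have h1 : ∀ i ∈ Finset.range n, Sm (fun _ : Γ => (1 : ℝ)) (V i) := by
      intro i hi
      unfold Sm
      simpa using hV i (Finset.mem_range.mp hi)
    have h2 := (T3A Γ ℂ (fun _ => 1) (V a) (V b) (V d) ⟨fun _ => le_refl _, fun _ _ => by simp⟩
      (h1 a ha) (h1 b hb) (h1 d hd)).1 g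
    refine Summable.of_norm (h2.congr (fun h => ?_))
    rw [norm_mul, norm_mul]
  unfold T3
  have h1 : ∀ h : Γ × Γ, (∑ a ∈ Finset.range n, c a * V a h.1) *
      (∑ a ∈ Finset.range n, c a * V a h.2) *
      (∑ a ∈ Finset.range n, c a * V a (g - h.1 - h.2)) =
      ∑ a ∈ Finset.range n, ∑ b ∈ Finset.range n, ∑ d ∈ Finset.range n,
        (c a * c b * c d) * (V a h.1 * V b h.2 * V d (g - h.1 - h.2)) := by
    intro h
    rw [Finset.sum_mul_sum, Finset.sum_mul]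
    refine Finset.sum_congr rfl (fun a _ => ?_)
    rw [Finset.sum_mul_sum]
    refine Finset.sum_congr rfl (fun b _ => Finset.sum_congr rfl (fun d _ => ?_))
    ring
  simp_rw [h1]
  rw [Summable.tsum_finsetSum (fun a ha => summable_sum (fun b hb => summable_sum
    (fun d hd => (hs a ha b hb d hd).mul_left _)))]
  refine Finset.sum_congr rfl (fun a ha => ?_)
  rw [Summable.tsum_finsetSum (fun b hb => summable_sum
    (fun d hd => (hs a ha b hb d hd).mul_left _))]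
  refine Finset.sum_congr rfl (fun b hb => ?_)
  rw [Summable.tsum_finsetSum (fun d hd => (hs a ha b hb d hd).mul_left _)]
  exact Finset.sum_congr rfl (fun d hd => tsum_mul_left)

/-! ## The algebra -/

theorem alg (K : ℕ) (A ω : ℝ) (β : ℕ → ℝ) (x y : ℕ → ℂ) (e : ℕ → ℕ → ℕ → ℂ)
    (hE : ∀ j ≤ K, y j - Complex.I * (ω : ℂ) * x j =
      ∑ i ∈ Finset.Icc 1 j, ((β i * (2 * ((j : ℝ) - i) + 1) : ℝ) : ℂ) * x (j - i) -
      (if j = 0 then 0 else ∑ a ∈ Finset.range (j - 1 + 1), ∑ b ∈ Finset.range (j - 1 + 1 - a),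
        e a b (j - 1 - a - b))) :
    ∑ j ∈ Finset.range (K + 1), (((2 * j + 1 : ℕ) : ℂ) * (A : ℂ) ^ (2 * j) *
        ((-(A * ∑ i ∈ Finset.Icc 1 K, β i * A ^ (2 * i)) : ℝ) : ℂ) * x j +
        (A : ℂ) ^ (2 * j + 1) * y j) =
    Complex.I * (ω : ℂ) * (∑ j ∈ Finset.range (K + 1), (A : ℂ) ^ (2 * j + 1) * x j) -
      (∑ a ∈ Finset.range (K + 1), ∑ b ∈ Finset.range (K + 1), ∑ c ∈ Finset.range (K + 1),
        ((A : ℂ) ^ (2 * a + 1) * (A : ℂ) ^ (2 * b + 1) * (A : ℂ) ^ (2 * c + 1)) * e a b c) +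
    ((∑ a ∈ Finset.range (K + 1), ∑ b ∈ Finset.range (K + 1), ∑ c ∈ Finset.range (K + 1),
      if K ≤ a + b + c then ((A ^ (2 * (a + b + c) + 3) : ℝ) : ℂ) * e a b c else 0) -
    ∑ j ∈ Finset.range (K + 1), ∑ i ∈ Finset.Icc 1 K,
      if K < i + j then ((β i * (2 * j + 1) * A ^ (2 * (i + j) + 1) : ℝ) : ℂ) * x j
      else 0) := by
  -- the cubes
  have c1 : (∑ a ∈ Finset.range (K + 1), ∑ b ∈ Finset.range (K + 1), ∑ c ∈ Finset.range (K + 1),
        ((A : ℂ) ^ (2 * a + 1) * (A : ℂ) ^ (2 * b + 1) * (A : ℂ) ^ (2 * c + 1)) * e a b c) =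
      (∑ a ∈ Finset.range (K + 1), ∑ b ∈ Finset.range (K + 1), ∑ c ∈ Finset.range (K + 1),
        if a + b + c < K then (A : ℂ) ^ (2 * (a + b + c) + 3) * e a b c else 0) +
      (∑ a ∈ Finset.range (K + 1), ∑ b ∈ Finset.range (K + 1), ∑ c ∈ Finset.range (K + 1),
      if K ≤ a + b + c then ((A ^ (2 * (a + b + c) + 3) : ℝ) : ℂ) * e a b c else 0) := by
    simp_rw [← Finset.sum_add_distrib]
    refine Finset.sum_congr rfl (fun a _ => Finset.sum_congr rfl (fun b _ =>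
      Finset.sum_congr rfl (fun c _ => ?_)))
    have hp : (A : ℂ) ^ (2 * a + 1) * (A : ℂ) ^ (2 * b + 1) * (A : ℂ) ^ (2 * c + 1) =
        (A : ℂ) ^ (2 * (a + b + c) + 3) := by
      rw [← pow_add, ← pow_add]
      congr 1
      ring
    rw [hp]
    by_cases h : a + b + c < K
    · rw [if_pos h, if_neg (by omega), add_zero]
    · rw [if_neg h, if_pos (by omega), zero_add, Complex.ofReal_pow]
  have c2 := comb2 K (fun a b c => (A : ℂ) ^ (2 * (a + b + c) + 3) * e a b c)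
  -- the linear terms
  have c3 : ∑ j ∈ Finset.range (K + 1), ((2 * j + 1 : ℕ) : ℂ) * (A : ℂ) ^ (2 * j) *
        ((-(A * ∑ i ∈ Finset.Icc 1 K, β i * A ^ (2 * i)) : ℝ) : ℂ) * x j =
      - (∑ j ∈ Finset.range (K + 1), ∑ i ∈ Finset.Icc 1 K,
        if i + j ≤ K then ((β i * (2 * j + 1) * A ^ (2 * (i + j) + 1) : ℝ) : ℂ) * x j else 0) -
      (∑ j ∈ Finset.range (K + 1), ∑ i ∈ Finset.Icc 1 K,
        if K < i + j then ((β i * (2 * j + 1) * A ^ (2 * (i + j) + 1) : ℝ) : ℂ) * x j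
        else 0) := by
    rw [← neg_add', ← Finset.sum_add_distrib, ← Finset.sum_neg_distrib]
    refine Finset.sum_congr rfl (fun j _ => ?_)
    rw [← Finset.sum_add_distrib]
    have h1 : ∀ i ∈ Finset.Icc 1 K,
        ((if i + j ≤ K then ((β i * (2 * j + 1) * A ^ (2 * (i + j) + 1) : ℝ) : ℂ) * x j else 0) +
        if K < i + j then ((β i * (2 * j + 1) * A ^ (2 * (i + j) + 1) : ℝ) : ℂ) * x j
        else 0) = ((β i * A ^ (2 * i) : ℝ) : ℂ) * (((2 * j + 1 : ℕ) : ℂ) * (A : ℂ) ^ (2 * j) *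
          (A : ℂ) * x j) := by
      intro i _
      have h2 : ((β i * (2 * j + 1) * A ^ (2 * (i + j) + 1) : ℝ) : ℂ) * x j =
          ((β i * A ^ (2 * i) : ℝ) : ℂ) * (((2 * j + 1 : ℕ) : ℂ) * (A : ℂ) ^ (2 * j) *
          (A : ℂ) * x j) := by
        push_cast
        ring
      by_cases h : i + j ≤ K
      · rw [if_pos h, if_neg (by omega), add_zero, h2]
      · rw [if_neg h, if_pos (by omega), zero_add, h2]
    rw [Finset.sum_congr rfl h1, ← Finset.sum_mul, ← Complex.ofReal_sum]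
    push_cast
    ring
  have c4 := comb1 K (fun i m => ((β i * (2 * m + 1) * A ^ (2 * (i + m) + 1) : ℝ) : ℂ) * x m)
  -- the equations
  have c5 : ∑ j ∈ Finset.range (K + 1), (A : ℂ) ^ (2 * j + 1) * (y j - Complex.I * (ω : ℂ) * x j) =
      (∑ j ∈ Finset.range (K + 1), ∑ i ∈ Finset.Icc 1 K,
        if i + j ≤ K then ((β i * (2 * j + 1) * A ^ (2 * (i + j) + 1) : ℝ) : ℂ) * x j else 0) -
      (∑ a ∈ Finset.range (K + 1), ∑ b ∈ Finset.range (K + 1), ∑ c ∈ Finset.range (K + 1),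
        if a + b + c < K then (A : ℂ) ^ (2 * (a + b + c) + 3) * e a b c else 0) := by
    rw [← c2, ← c4]
    have h1 : ∀ j ∈ Finset.range (K + 1), (A : ℂ) ^ (2 * j + 1) *
        (y j - Complex.I * (ω : ℂ) * x j) =
        ∑ i ∈ Finset.Icc 1 j, ((β i * (2 * (j - i : ℕ) + 1) * A ^ (2 * (i + (j - i)) + 1) : ℝ) : ℂ) *
          x (j - i) -
        (if j = 0 then 0 else ∑ a ∈ Finset.range (j - 1 + 1), ∑ b ∈ Finset.range (j - 1 + 1 - a),
          (A : ℂ) ^ (2 * (a + b + (j - 1 - a - b)) + 3) * e a b (j - 1 - a - b)) := by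
      intro j hj
      rw [hE j (by have := Finset.mem_range.mp hj; omega), mul_sub, Finset.mul_sum]
      congr 1
      · refine Finset.sum_congr rfl (fun i hi => ?_)
        have hi' := Finset.mem_Icc.mp hi
        have h3 : i + (j - i) = j := by omega
        rw [h3, Nat.cast_sub hi'.2]
        push_cast
        ring
      · by_cases h0 : j = 0
        · rw [if_pos h0, if_pos h0, mul_zero]
        · rw [if_neg h0, if_neg h0, Finset.mul_sum]
          refine Finset.sum_congr rfl (fun a ha => ?_)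
          rw [Finset.mul_sum]
          refine Finset.sum_congr rfl (fun b hb => ?_)
          have ha' := Finset.mem_range.mp ha
          have hb' := Finset.mem_range.mp hb
          have h3 : 2 * (a + b + (j - 1 - a - b)) + 3 = 2 * j + 1 := by omega
          rw [h3]
    rw [Finset.sum_congr rfl h1, Finset.sum_sub_distrib]
    congr 1
    rw [Finset.sum_range_succ']
    simp only [if_true, add_zero, Nat.add_sub_cancel, Nat.succ_ne_zero, if_false]
  rw [Finset.sum_add_distrib, c3, c1]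
  have c6 : ∑ j ∈ Finset.range (K + 1), (A : ℂ) ^ (2 * j + 1) * y j =
      ∑ j ∈ Finset.range (K + 1), (A : ℂ) ^ (2 * j + 1) * (y j - Complex.I * (ω : ℂ) * x j) +
      Complex.I * (ω : ℂ) * (∑ j ∈ Finset.range (K + 1), (A : ℂ) ^ (2 * j + 1) * x j) := by
    rw [Finset.mul_sum, ← Finset.sum_add_distrib]
    refine Finset.sum_congr rfl (fun j _ => ?_)
    ring
  rw [c6, c5]
  ring

theorem ev_fsum1 {P Q : Type} [AddCommGroup P] [AddCommGroup Q] (θ : P →+ ℝ) {ι : Type}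
    (s : Finset ι) (F : ι → P × Q → ℂ) {k : Q}
    (h : ∀ i ∈ s, Summable fun p => ‖F i (p, k)‖) (t : ℝ) :
    ev θ (fun g => ∑ i ∈ s, F i g) t k = ∑ i ∈ s, ev θ (F i) t k := by
  have h1 := ev_fsum θ s (fun _ => 1) F h t
  simpa only [one_mul] using h1

theorem sum_fib {P Q : Type} {ι : Type} (s : Finset ι) (F : ι → P × Q → ℂ) {k : Q}
    (h : ∀ i ∈ s, Summable fun p => ‖F i (p, k)‖) :
    Summable fun p => ‖(fun g => ∑ i ∈ s, F i g) (p, k)‖ := by
  have h1 : Summable fun p => ∑ i ∈ s, ‖F i (p, k)‖ := summable_sum h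
  exact Summable.of_nonneg_of_le (fun p => norm_nonneg _) (fun p => norm_sum_le _ _) h1

theorem ev_sub {P Q : Type} [AddCommGroup P] [AddCommGroup Q] (θ : P →+ ℝ)
    {F G : P × Q → ℂ} {k : Q} (hF : Summable fun p => ‖F (p, k)‖)
    (hG : Summable fun p => ‖G (p, k)‖) (t : ℝ) :
    ev θ (fun g => F g - G g) t k = ev θ F t k - ev θ G t k := by
  unfold ev
  rw [← (sum_ev θ hF t).tsum_sub (sum_ev θ hG t)]
  exact tsum_congr (fun p => sub_mul _ _ _)

theorem ev_smul {P Q : Type} [AddCommGroup P] [AddCommGroup Q] (θ : P →+ ℝ) (c : ℂ)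
    (F : P × Q → ℂ) (t : ℝ) (k : Q) : ev θ (fun g => c * F g) t k = c * ev θ F t k := by
  unfold ev
  rw [← tsum_mul_left]
  exact tsum_congr (fun p => mul_assoc _ _ _)

theorem ev_congr {P Q : Type} [AddCommGroup P] [AddCommGroup Q] (θ : P →+ ℝ)
    {F G : P × Q → ℂ} {k : Q} (h : ∀ p, F (p, k) = G (p, k)) (t : ℝ) :
    ev θ F t k = ev θ G t k := by
  unfold ev
  exact tsum_congr (fun p => by rw [h p])

theorem smul_fib {P Q : Type} (c : ℂ) {F : P × Q → ℂ} {k : Q}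
    (h : Summable fun p => ‖F (p, k)‖) :
    Summable fun p => ‖(fun g => c * F g) (p, k)‖ :=
  (h.mul_left ‖c‖).congr (fun _ => (norm_mul _ _).symm)

theorem ev_dbl {P Q : Type} [AddCommGroup P] [AddCommGroup Q] (θ : P →+ ℝ)
    (n : ℕ) (U : ℕ → ℕ → P × Q → ℂ) {k : Q}
    (h : ∀ a ∈ Finset.range n, ∀ b ∈ Finset.range (n - a), Summable fun p => ‖U a b (p, k)‖)
    (t : ℝ) :
    (Summable fun p => ‖(fun g => ∑ a ∈ Finset.range n, ∑ b ∈ Finset.range (n - a), U a b g)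
      (p, k)‖) ∧
    ev θ (fun g => ∑ a ∈ Finset.range n, ∑ b ∈ Finset.range (n - a), U a b g) t k =
      ∑ a ∈ Finset.range n, ∑ b ∈ Finset.range (n - a), ev θ (U a b) t k := by
  have h1 : ∀ a ∈ Finset.range n, Summable fun p =>
      ‖(fun g => ∑ b ∈ Finset.range (n - a), U a b g) (p, k)‖ := fun a ha =>
    sum_fib (Finset.range (n - a)) (fun b g => U a b g) (h a ha)
  refine ⟨sum_fib (Finset.range n) (fun a g => ∑ b ∈ Finset.range (n - a), U a b g) h1, ?_⟩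
  rw [ev_fsum1 θ (Finset.range n) (fun a g => ∑ b ∈ Finset.range (n - a), U a b g) h1 t]
  refine Finset.sum_congr rfl (fun a ha => ?_)
  exact ev_fsum1 θ (Finset.range (n - a)) (fun b => U a b) (h a ha) t

theorem ev_triple {P Q : Type} [AddCommGroup P] [AddCommGroup Q] (θ : P →+ ℝ)
    (s : Finset ℕ) (cf : ℕ → ℕ → ℕ → ℂ) (U : ℕ → ℕ → ℕ → P × Q → ℂ) {k : Q}
    (h : ∀ a ∈ s, ∀ b ∈ s, ∀ c ∈ s, Summable fun p => ‖U a b c (p, k)‖) (t : ℝ) :
    ev θ (fun g => ∑ a ∈ s, ∑ b ∈ s, ∑ c ∈ s, cf a b c * U a b c g) t k =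
      ∑ a ∈ s, ∑ b ∈ s, ∑ c ∈ s, cf a b c * ev θ (U a b c) t k := by
  have hm : ∀ a ∈ s, ∀ b ∈ s, ∀ c ∈ s,
      Summable fun p => ‖(fun g => cf a b c * U a b c g) (p, k)‖ := by
    intro a ha b hb c hc
    refine ((h a ha b hb c hc).mul_left ‖cf a b c‖).congr (fun p => ?_)
    exact (norm_mul _ _).symm
  have h1 : ∀ a ∈ s, ∀ b ∈ s, Summable fun p =>
      ‖(fun g => ∑ c ∈ s, cf a b c * U a b c g) (p, k)‖ := fun a ha b hb =>
    sum_fib s (fun c g => cf a b c * U a b c g) (hm a ha b hb)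
  have h2 : ∀ a ∈ s, Summable fun p =>
      ‖(fun g => ∑ b ∈ s, ∑ c ∈ s, cf a b c * U a b c g) (p, k)‖ := fun a ha =>
    sum_fib s (fun b g => ∑ c ∈ s, cf a b c * U a b c g) (h1 a ha)
  rw [ev_fsum1 θ s (fun a g => ∑ b ∈ s, ∑ c ∈ s, cf a b c * U a b c g) h2 t]
  refine Finset.sum_congr rfl (fun a ha => ?_)
  rw [ev_fsum1 θ s (fun b g => ∑ c ∈ s, cf a b c * U a b c g) (h1 a ha) t]
  refine Finset.sum_congr rfl (fun b hb => ?_)
  exact ev_fsum θ s (fun c => cf a b c) (fun c => U a b c) (h a ha b hb) t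

theorem rsa (T3A : T3aStmt) (_T3S : T3sStmt) (EVD : EvdStmt) (EVT : EvtStmt) (EVR : EvrStmt) :
    RsaStmt := by
  intro P Q _ _ θ om w K W β A t1 hw hK hS hEq hA k t ht
  obtain ⟨_, hA2, _⟩ := hA
  obtain ⟨hApos, hA1, hAd⟩ := hA2 t ht
  have hw1 : ∀ k, 1 ≤ w k := hw.1
  have hevd := fun j (hj : j ≤ K) => EVD P Q θ w (W j) hw1 (hS j hj)
  have hsum : ∀ j ≤ K, Summable fun g => ‖W j g‖ := by
    intro j hj
    refine Summable.of_nonneg_of_le (fun g => norm_nonneg _) (fun g => ?_) (hS j hj)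
    have h1 : (1 : ℝ) ≤ (1 + |θ g.1|) * w g.2 := by
      have h2 := hw1 g.2
      have h3 := abs_nonneg (θ g.1)
      nlinarith
    nlinarith [norm_nonneg (W j g)]
  have hθ : ∀ j ≤ K, Summable fun p =>
      ‖(fun g : P × Q => Complex.I * (θ g.1 : ℂ) * W j g) (p, k)‖ := by
    intro j hj
    have h0 : Summable fun p => ‖W j (p, k)‖ * ((1 + |θ p|) * w k) :=
      (hS j hj).comp_injective (i := fun p => (p, k)) (fun _ _ hab => (Prod.ext_iff.mp hab).1)
    refine Summable.of_nonneg_of_le (fun p => norm_nonneg _) (fun p => ?_) h0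
    show ‖Complex.I * (θ p : ℂ) * W j (p, k)‖ ≤ _
    rw [norm_mul, norm_mul, Complex.norm_I, one_mul, Complex.norm_real, Real.norm_eq_abs]
    have h1 := hw1 k
    have h2 := abs_nonneg (θ p)
    have h3 := norm_nonneg (W j (p, k))
    have h4 : |θ p| ≤ (1 + |θ p|) * w k := by nlinarith
    nlinarith
  have hV : ∀ j ≤ K, Summable fun g => ‖Vp (W j) g‖ := fun j hj => (EVR P Q θ (W j) (hsum j hj)).1
  have hT : ∀ a ≤ K, ∀ b ≤ K, ∀ c ≤ K,
      Summable fun g => ‖T3 (Vp (W a)) (Vp (W b)) (Vp (W c)) g‖ := by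
    intro a ha b hb c hc
    have h1 : ∀ i ≤ K, Sm (fun _ : P × Q => (1 : ℝ)) (Vp (W i)) := by
      intro i hi
      unfold Sm
      simpa using hV i hi
    have h2 := (T3A (P × Q) ℂ (fun _ => 1) _ _ _ ⟨fun _ => le_refl _, fun _ _ => by simp⟩
      (h1 a ha) (h1 b hb) (h1 c hc)).2.1
    unfold Sm at h2
    simpa using h2
  -- the cube
  have hre : ∀ q, (((cur θ W A K q t).re : ℝ) : ℂ) =
      ev θ (fun g => ∑ a ∈ Finset.range (K + 1), ((A t : ℝ) : ℂ) ^ (2 * a + 1) * Vp (W a) g) t q := by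
    intro q
    rw [ev_fsum θ (Finset.range (K + 1)) (fun a => ((A t : ℝ) : ℂ) ^ (2 * a + 1))
      (fun a => Vp (W a)) (fun a ha => fib (hV a (by have := Finset.mem_range.mp ha; omega)) q) t]
    unfold cur
    rw [Complex.re_sum, Complex.ofReal_sum]
    refine Finset.sum_congr rfl (fun a ha => ?_)
    rw [(EVR P Q θ (W a) (hsum a (by have := Finset.mem_range.mp ha; omega))).2 t q,
      ← Complex.ofReal_pow, Complex.re_ofReal_mul, Complex.ofReal_mul]
  have hF : Summable fun g => ‖∑ a ∈ Finset.range (K + 1),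
      ((A t : ℝ) : ℂ) ^ (2 * a + 1) * Vp (W a) g‖ := by
    have h1 : Summable fun g => ∑ a ∈ Finset.range (K + 1),
        ‖((A t : ℝ) : ℂ) ^ (2 * a + 1) * Vp (W a) g‖ := by
      refine summable_sum (fun a ha => ?_)
      refine ((hV a (by have := Finset.mem_range.mp ha; omega)).mul_left
        ‖((A t : ℝ) : ℂ) ^ (2 * a + 1)‖).congr (fun g => ?_)
      rw [norm_mul]
    exact Summable.of_nonneg_of_le (fun g => norm_nonneg _) (fun g => norm_sum_le _ _) h1
  have hcube : T3 (fun q => (((cur θ W A K q t).re : ℝ) : ℂ))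
      (fun q => (((cur θ W A K q t).re : ℝ) : ℂ)) (fun q => (((cur θ W A K q t).re : ℝ) : ℂ)) k =
      ∑ a ∈ Finset.range (K + 1), ∑ b ∈ Finset.range (K + 1), ∑ c ∈ Finset.range (K + 1),
        (((A t : ℝ) : ℂ) ^ (2 * a + 1) * ((A t : ℝ) : ℂ) ^ (2 * b + 1) *
          ((A t : ℝ) : ℂ) ^ (2 * c + 1)) *
          ev θ (T3 (Vp (W a)) (Vp (W b)) (Vp (W c))) t k := by
    have h1 : (fun q => (((cur θ W A K q t).re : ℝ) : ℂ)) = ev θ (fun g =>
      ∑ a ∈ Finset.range (K + 1), ((A t : ℝ) : ℂ) ^ (2 * a + 1) * Vp (W a) g) t := funext hre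
    rw [h1, EVT P Q θ _ _ _ hF hF hF t k]
    have h2 : T3 (fun g => ∑ a ∈ Finset.range (K + 1), ((A t : ℝ) : ℂ) ^ (2 * a + 1) * Vp (W a) g)
        (fun g => ∑ a ∈ Finset.range (K + 1), ((A t : ℝ) : ℂ) ^ (2 * a + 1) * Vp (W a) g)
        (fun g => ∑ a ∈ Finset.range (K + 1), ((A t : ℝ) : ℂ) ^ (2 * a + 1) * Vp (W a) g) =
        fun g => ∑ a ∈ Finset.range (K + 1), ∑ b ∈ Finset.range (K + 1),
          ∑ c ∈ Finset.range (K + 1), (((A t : ℝ) : ℂ) ^ (2 * a + 1) *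
            ((A t : ℝ) : ℂ) ^ (2 * b + 1) * ((A t : ℝ) : ℂ) ^ (2 * c + 1)) *
            T3 (Vp (W a)) (Vp (W b)) (Vp (W c)) g :=
      funext (fun g => T3_fsum T3A (K + 1) (fun a => ((A t : ℝ) : ℂ) ^ (2 * a + 1))
        (fun a => Vp (W a)) (fun a ha => hV a (by omega)) g)
    rw [h2]
    exact ev_triple θ (Finset.range (K + 1)) (fun a b c => ((A t : ℝ) : ℂ) ^ (2 * a + 1) *
        ((A t : ℝ) : ℂ) ^ (2 * b + 1) * ((A t : ℝ) : ℂ) ^ (2 * c + 1))
      (fun a b c => T3 (Vp (W a)) (Vp (W b)) (Vp (W c))) (fun a ha b hb c hc =>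
        fib (hT a (by have := Finset.mem_range.mp ha; omega) b
          (by have := Finset.mem_range.mp hb; omega) c
          (by have := Finset.mem_range.mp hc; omega)) k) t
  -- the equations
  have hE : ∀ j ≤ K, ev θ (fun g => Complex.I * (θ g.1 : ℂ) * W j g) t k -
      Complex.I * (om k : ℂ) * ev θ (W j) t k =
      ∑ i ∈ Finset.Icc 1 j, ((β i * (2 * ((j : ℝ) - i) + 1) : ℝ) : ℂ) * ev θ (W (j - i)) t k -
      (if j = 0 then 0 else ∑ a ∈ Finset.range (j - 1 + 1), ∑ b ∈ Finset.range (j - 1 + 1 - a),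
        ev θ (T3 (Vp (W a)) (Vp (W b)) (Vp (W (j - 1 - a - b)))) t k) := by
    intro j hj
    have h1 : ev θ (fun g => Complex.I * (θ g.1 : ℂ) * W j g) t k -
        Complex.I * (om k : ℂ) * ev θ (W j) t k =
        ev θ (fun g => Complex.I * (sg θ om g : ℂ) * W j g) t k := by
      rw [← ev_smul θ (Complex.I * (om k : ℂ)) (W j) t k,
        ← ev_sub θ (F := fun g => Complex.I * (θ g.1 : ℂ) * W j g)
          (G := fun g => Complex.I * (om k : ℂ) * W j g) (hθ j hj)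
          (smul_fib (Complex.I * (om k : ℂ)) (fib (hsum j hj) k)) t]
      refine ev_congr θ (fun p => ?_) t
      show Complex.I * (θ p : ℂ) * W j (p, k) - Complex.I * (om k : ℂ) * W j (p, k) =
        Complex.I * (sg θ om (p, k) : ℂ) * W j (p, k)
      unfold sg
      push_cast
      ring
    have hs2 : ∀ a ∈ Finset.range (j - 1 + 1), ∀ b ∈ Finset.range (j - 1 + 1 - a),
        0 < j → Summable fun p => ‖T3 (Vp (W a)) (Vp (W b)) (Vp (W (j - 1 - a - b))) (p, k)‖ := by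
      intro a ha b hb h0
      have ha' := Finset.mem_range.mp ha
      have hb' := Finset.mem_range.mp hb
      exact fib (hT a (by omega) b (by omega) (j - 1 - a - b) (by omega)) k
    have hs1 : Summable fun p => ‖(fun g => ∑ i ∈ Finset.Icc 1 j,
        ((β i * (2 * ((j : ℝ) - i) + 1) : ℝ) : ℂ) * W (j - i) g) (p, k)‖ :=
      sum_fib (Finset.Icc 1 j) (fun i g => ((β i * (2 * ((j : ℝ) - i) + 1) : ℝ) : ℂ) * W (j - i) g)
        (fun i _ => smul_fib ((β i * (2 * ((j : ℝ) - i) + 1) : ℝ) : ℂ)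
          (fib (hsum (j - i) (by omega)) k))
    have h4 := ev_fsum θ (Finset.Icc 1 j) (fun i => ((β i * (2 * ((j : ℝ) - i) + 1) : ℝ) : ℂ))
      (fun i => W (j - i)) (k := k) (fun i _ => fib (hsum (j - i) (by omega)) k) t
    by_cases h0 : j = 0
    · have h2 : (fun g => Complex.I * (sg θ om g : ℂ) * W j g) = fun g =>
          ∑ i ∈ Finset.Icc 1 j, ((β i * (2 * ((j : ℝ) - i) + 1) : ℝ) : ℂ) * W (j - i) g := by
        funext g
        have h5 := hEq j hj g
        unfold Eqn at h5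
        rw [h5, if_pos h0, sub_zero]
      rw [h1, h2, h4, if_pos h0, sub_zero]
    · have h2 : (fun g => Complex.I * (sg θ om g : ℂ) * W j g) = fun g =>
          (∑ i ∈ Finset.Icc 1 j, ((β i * (2 * ((j : ℝ) - i) + 1) : ℝ) : ℂ) * W (j - i) g) -
          Cub W (j - 1) g := by
        funext g
        have h5 := hEq j hj g
        unfold Eqn at h5
        rw [h5, if_neg h0]
      have hc := ev_dbl θ (j - 1 + 1) (fun a b => T3 (Vp (W a)) (Vp (W b))
        (Vp (W (j - 1 - a - b)))) (k := k) (fun a ha b hb => hs2 a ha b hb (by omega)) t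
      have hc1 : Summable fun p => ‖Cub W (j - 1) (p, k)‖ := hc.1
      have hc2 : ev θ (Cub W (j - 1)) t k = ∑ a ∈ Finset.range (j - 1 + 1),
          ∑ b ∈ Finset.range (j - 1 + 1 - a),
          ev θ (T3 (Vp (W a)) (Vp (W b)) (Vp (W (j - 1 - a - b)))) t k := hc.2
      have h6 := ev_sub θ (F := fun g => ∑ i ∈ Finset.Icc 1 j,
        ((β i * (2 * ((j : ℝ) - i) + 1) : ℝ) : ℂ) * W (j - i) g) (G := Cub W (j - 1)) hs1 hc1 t
      rw [h1, h2, h6, h4, if_neg h0, hc2]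
  -- the derivative
  have hder : HasDerivAt (cur θ W A K k) (∑ j ∈ Finset.range (K + 1),
      (((2 * j + 1 : ℕ) : ℂ) * ((A t : ℝ) : ℂ) ^ (2 * j) *
        ((-(A t * ∑ i ∈ Finset.Icc 1 K, β i * A t ^ (2 * i)) : ℝ) : ℂ) * ev θ (W j) t k +
        ((A t : ℝ) : ℂ) ^ (2 * j + 1) *
          ev θ (fun g => Complex.I * (θ g.1 : ℂ) * W j g) t k)) t := by
    unfold cur
    refine HasDerivAt.fun_sum (fun j hj => ?_)
    have h1 := (hevd j (by have := Finset.mem_range.mp hj; omega)).2.2.2.2.2.2 k t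
    exact (hAd.ofReal_comp.fun_pow (2 * j + 1)).mul h1
  have halg := alg K (A t) (om k) β (fun j => ev θ (W j) t k)
    (fun j => ev θ (fun g => Complex.I * (θ g.1 : ℂ) * W j g) t k)
    (fun a b c => ev θ (T3 (Vp (W a)) (Vp (W b)) (Vp (W c))) t k) hE
  rw [halg] at hder
  unfold rhs
  rw [hcube]
  exact hder

end

end Pool.Agent.BOX.H10
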